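import Mathlib
import Pool.Agent.H463R3.PSLn

/-!
# MP_d08dce_al, Q1: no

For every `k` the group `SL_n(3)`, `n` odd and large, is a finite simple group which is not
isomorphic to an alternating group and which is not totally `k`-closed.
-/

namespace Pool.Agent.Results.MP_d08dce_al.NoUniformK

open Matrix

/-- The `k`-closure of (the permutation group induced by) `G` on `Ω`: the permutations that map
each `G`-orbit on `k`-tuples onto itself. -/
def kClosure (G Ω : Type) [Group G] [MulAction G Ω] (k : ℕ) : Set (Equiv.Perm Ω) :=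
  {x | ∀ t : Fin k → Ω,
    (fun s : Fin k → Ω => fun i => x (s i)) '' (MulAction.orbit G t) = MulAction.orbit G t}

/-- `G` is totally `k`-closed: in every faithful action on a finite set the `k`-closure of `G`
is `G`. -/
def TotallyClosed (G : Type) [Group G] (k : ℕ) : Prop :=
  ∀ (Ω : Type) [Finite Ω] [MulAction G Ω], FaithfulSMul G Ω →
    kClosure G Ω k = Set.range (fun g : G => MulAction.toPerm g)

theorem fact_ineq {N : ℕ} (hN : 24 ≤ N) : 6 * 9 ^ N < N.factorial := by
  induction N, hN using Nat.le_induction with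
  | base => norm_num [Nat.factorial]
  | succ n hn ih =>
    rw [Nat.factorial_succ, pow_succ]
    nlinarith [Nat.factorial_pos n, pow_pos (by norm_num : (0 : ℕ) < 9) n]

theorem val_ineq {m a : ℕ} (h : 3 ^ a ∣ m.factorial) : 2 * a ≤ m := by
  have : Fact (Nat.Prime 3) := ⟨Nat.prime_three⟩
  have h1 := sub_one_mul_padicValNat_factorial (p := 3) m
  have h2 : a ≤ padicValNat 3 m.factorial :=
    (padicValNat_dvd_iff_le (Nat.factorial_ne_zero m)).1 h
  have h3 : (3 - 1) * padicValNat 3 m.factorial ≤ m := by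
    rw [h1]
    exact Nat.sub_le _ _
  omega

/-- The special linear group over the field with three elements. -/
abbrev SL (b : ℕ) : Type := SpecialLinearGroup (Fin b ⊕ Fin (b + 1)) (ZMod 3)

theorem card_index (b : ℕ) : Fintype.card (Fin b ⊕ Fin (b + 1)) = 2 * b + 1 := by
  rw [Fintype.card_sum, Fintype.card_fin, Fintype.card_fin]
  ring

instance : Fact (Nat.Prime 3) := ⟨Nat.prime_three⟩

/-- The unipotent block subgroup. -/
def uni (b : ℕ) : Multiplicative (Matrix (Fin b) (Fin (b + 1)) (ZMod 3)) →* SL b where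
  toFun A := ⟨fromBlocks 1 A.toAdd 0 1, by rw [det_fromBlocks_zero₂₁, det_one, det_one, one_mul]⟩
  map_one' := by
    apply Subtype.ext
    exact fromBlocks_one
  map_mul' A B := by
    apply Subtype.ext
    show fromBlocks 1 (A.toAdd + B.toAdd) 0 1 = fromBlocks 1 A.toAdd 0 1 * fromBlocks 1 B.toAdd 0 1
    rw [fromBlocks_multiply]
    simp [add_comm]

theorem uni_injective (b : ℕ) : Function.Injective (uni b) := by
  intro A B h
  have h1 : fromBlocks 1 A.toAdd 0 1 = fromBlocks 1 B.toAdd 0 1 := congrArg Subtype.val h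
  exact (fromBlocks_inj.1 h1).2.1

theorem pow_dvd_card (b : ℕ) : 3 ^ (b * (b + 1)) ∣ Nat.card (SL b) := by
  have h := Subgroup.card_dvd_of_injective (uni b) (uni_injective b)
  have h2 : Nat.card (Multiplicative (Matrix (Fin b) (Fin (b + 1)) (ZMod 3))) =
      3 ^ (b * (b + 1)) := by
    rw [Nat.card_congr Multiplicative.toAdd]
    show Nat.card (Fin b → Fin (b + 1) → ZMod 3) = _
    rw [Nat.card_eq_fintype_card, Fintype.card_fun, Fintype.card_fun, Fintype.card_fin,
      Fintype.card_fin, ZMod.card, ← pow_mul, mul_comm]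
  rwa [h2] at h

theorem card_le (b : ℕ) : Nat.card (SL b) ≤ 3 ^ ((2 * b + 1) * (2 * b + 1)) := by
  have h1 : Nat.card (SL b) ≤
      Nat.card (Matrix (Fin b ⊕ Fin (b + 1)) (Fin b ⊕ Fin (b + 1)) (ZMod 3)) :=
    Nat.card_le_card_of_injective (fun A => A.1) Subtype.val_injective
  have h2 : Nat.card (Matrix (Fin b ⊕ Fin (b + 1)) (Fin b ⊕ Fin (b + 1)) (ZMod 3)) =
      3 ^ ((2 * b + 1) * (2 * b + 1)) := by
    rw [Nat.card_eq_fintype_card]
    show Fintype.card (Fin b ⊕ Fin (b + 1) → Fin b ⊕ Fin (b + 1) → ZMod 3) = _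
    rw [Fintype.card_fun, Fintype.card_fun, card_index, ZMod.card, ← pow_mul]
  rwa [h2] at h1

/-- `SL_n(3)` is not an alternating group. -/
theorem not_alternating {b : ℕ} (hb : 3 ≤ b) (m : ℕ) :
    IsEmpty (SL b ≃* alternatingGroup (Fin m)) := by
  constructor
  intro e
  have hcard : Nat.card (SL b) = Nat.card (alternatingGroup (Fin m)) := Nat.card_congr e.toEquiv
  have hm : 2 ≤ m := by
    by_contra hcon
    have hs : Subsingleton (Fin m) := by
      rw [← not_nontrivial_iff_subsingleton, Fin.nontrivial_iff_two_le]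
      exact hcon
    have h1 : Nat.card (alternatingGroup (Fin m)) = 1 := by
      rw [Nat.card_eq_one_iff_unique]
      exact ⟨inferInstance, ⟨1⟩⟩
    have h2 := pow_dvd_card b
    rw [hcard, h1, Nat.dvd_one] at h2
    have h3 : b * (b + 1) ≠ 0 := by positivity
    exact absurd h2 (Nat.one_lt_pow h3 (by norm_num)).ne'
  have : Nontrivial (Fin m) := Fin.nontrivial_iff_two_le.2 hm
  have h2 : 2 * Nat.card (alternatingGroup (Fin m)) = m.factorial := by
    rw [two_mul_nat_card_alternatingGroup, Nat.card_perm, Nat.card_eq_fintype_card,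
      Fintype.card_fin]
  have h3 : 3 ^ (b * (b + 1)) ∣ m.factorial := by
    rw [← h2, ← hcard]
    exact Dvd.dvd.mul_left (pow_dvd_card b) 2
  have h4 := val_ineq h3
  have h5 : 24 ≤ 2 * (b * (b + 1)) := by nlinarith
  have h6 := fact_ineq h5
  have h7 : (2 * (b * (b + 1))).factorial ≤ m.factorial := Nat.factorial_le h4
  have h8 := card_le b
  have h9 : 3 ^ ((2 * b + 1) * (2 * b + 1)) = 3 * 9 ^ (2 * (b * (b + 1))) := by
    rw [show (9 : ℕ) = 3 ^ 2 by norm_num, ← pow_mul, ← pow_succ']
    congr 1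
    ring
  rw [h9] at h8
  omega

/-- `SL_n(3)` is simple for odd `n ≥ 3`. -/
theorem simple {b : ℕ} (hb : 1 ≤ b) : IsSimpleGroup (SL b) := by
  have hcen : Subgroup.center (SL b) = ⊥ := by
    rw [eq_bot_iff]
    intro A hA
    rw [Matrix.SpecialLinearGroup.mem_center_iff] at hA
    obtain ⟨r, hr, hA⟩ := hA
    have hr1 : r = 1 := by
      rw [card_index, pow_succ, pow_mul] at hr
      have h0 : r ≠ 0 := by
        rintro rfl
        rw [mul_zero] at hr
        exact zero_ne_one hr
      have h2 : r ^ 2 = 1 := by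
        have : ∀ r : ZMod 3, r ≠ 0 → r ^ 2 = 1 := by decide
        exact this r h0
      rw [h2, one_pow, one_mul] at hr
      exact hr
    rw [Subgroup.mem_bot]
    apply Subtype.ext
    rw [← hA, hr1]
    simp
  have h3 : 3 ≤ Fintype.card (Fin b ⊕ Fin (b + 1)) := by
    rw [card_index]
    omega
  have hP := Pool.Agent.H463R3.PSLn.isSimpleGroup_PSL (F := ZMod 3) h3
  let e : SL b ≃* ProjectiveSpecialLinearGroup (Fin b ⊕ Fin (b + 1)) (ZMod 3) :=
    (QuotientGroup.quotientBot (G := SL b)).symm.trans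
      (QuotientGroup.quotientMulEquivOfEq hcen.symm)
  exact e.isSimpleGroup

theorem smul_eq {b : ℕ} (g : SL b) (v : Fin b ⊕ Fin (b + 1) → ZMod 3) : g • v = g.1 *ᵥ v := rfl

theorem faithful (b : ℕ) : FaithfulSMul (SL b) (Fin b ⊕ Fin (b + 1) → ZMod 3) := by
  constructor
  intro A B h
  apply Subtype.ext
  ext i j
  have h1 := congrFun (h (Pi.single j 1)) i
  rw [smul_eq, smul_eq, mulVec_single_one, mulVec_single_one] at h1
  exact h1

/-- Minus the identity agrees with an element of `SL_n(3)` on every `k`-tuple, `k < n`. -/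
theorem agree {b k : ℕ} (hk : k < 2 * b + 1) (t : Fin k → (Fin b ⊕ Fin (b + 1) → ZMod 3)) :
    ∃ g : SL b, ∀ i, g • t i = - t i := by
  classical
  -- a functional vanishing on the tuple
  let L : (Fin b ⊕ Fin (b + 1) → ZMod 3) →ₗ[ZMod 3] (Fin k → ZMod 3) :=
    { toFun := fun f i => f ⬝ᵥ t i
      map_add' := by
        intro f g
        funext i
        exact add_dotProduct _ _ _
      map_smul' := by
        intro c f
        funext i
        exact smul_dotProduct _ _ _ }
  have hker : LinearMap.ker L ≠ ⊥ := by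
    apply LinearMap.ker_ne_bot_of_finrank_lt
    rw [Module.finrank_fintype_fun_eq_card, Module.finrank_fintype_fun_eq_card, card_index,
      Fintype.card_fin]
    exact hk
  obtain ⟨f, hf, hf0⟩ := (Submodule.ne_bot_iff _).1 hker
  have hft : ∀ i, f ⬝ᵥ t i = 0 := fun i => congrFun hf i
  obtain ⟨j, hj⟩ : ∃ j, f j ≠ 0 := by
    by_contra hcon
    push Not at hcon
    exact hf0 (funext hcon)
  let u : Fin b ⊕ Fin (b + 1) → ZMod 3 := Pi.single j (f j)⁻¹
  have hfu : f ⬝ᵥ u = 1 := by
    rw [dotProduct_single, mul_inv_cancel₀ hj]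
  have hdet : det (-(1 + replicateCol Unit u * replicateRow Unit f)) = (1 : ZMod 3) := by
    rw [det_neg, det_one_add_replicateCol_mul_replicateRow, hfu, card_index, pow_succ, pow_mul]
    simp
    decide
  refine ⟨⟨_, hdet⟩, fun i => ?_⟩
  show (-(1 + replicateCol Unit u * replicateRow Unit f)) *ᵥ t i = - t i
  rw [neg_mulVec, add_mulVec, one_mulVec, ← mulVec_mulVec]
  have h1 : replicateRow Unit f *ᵥ t i = 0 := by
    funext x
    exact hft i
  rw [h1, mulVec_zero, add_zero]

/-- Minus the identity is not in `SL_n(3)`. -/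
theorem not_neg {b : ℕ} (g : SL b) (hg : ∀ v : Fin b ⊕ Fin (b + 1) → ZMod 3, g • v = - v) :
    False := by
  have hg2 : g.1 = -1 := by
    ext i j
    have h2 := congrFun (hg (Pi.single j 1)) i
    rw [smul_eq, mulVec_single_one] at h2
    have h3 : g.1 i j = (- (Pi.single j 1 : Fin b ⊕ Fin (b + 1) → ZMod 3)) i := h2
    rw [h3, Matrix.neg_apply, Pi.neg_apply, Matrix.one_apply, Pi.single_apply]
  have hdet := g.2
  rw [hg2, det_neg, det_one, card_index, pow_succ, pow_mul] at hdet
  simp at hdet
  revert hdet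
  decide

/-- For every `k` there is a finite simple group, not isomorphic to an alternating group, which is
not totally `k`-closed. -/
theorem result : ∀ k : ℕ, 1 ≤ k → ∃ (G : Type) (_ : Group G), Finite G ∧ IsSimpleGroup G ∧
    (∀ m : ℕ, IsEmpty (G ≃* alternatingGroup (Fin m))) ∧ ¬ TotallyClosed G k := by
  intro k _
  refine ⟨SL (k + 3), inferInstance, inferInstance, simple (by omega),
    not_alternating (by omega), ?_⟩
  intro h
  have h1 := h (Fin (k + 3) ⊕ Fin (k + 3 + 1) → ZMod 3) (faithful _)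
  have hmem : Equiv.neg (Fin (k + 3) ⊕ Fin (k + 3 + 1) → ZMod 3) ∈
      kClosure (SL (k + 3)) (Fin (k + 3) ⊕ Fin (k + 3 + 1) → ZMod 3) k := by
    have key : ∀ t s : Fin k → (Fin (k + 3) ⊕ Fin (k + 3 + 1) → ZMod 3),
        s ∈ MulAction.orbit (SL (k + 3)) t → (fun i => - s i) ∈ MulAction.orbit (SL (k + 3)) t := by
      rintro t _ ⟨g, rfl⟩
      obtain ⟨g', hg'⟩ := agree (b := k + 3) (k := k) (by omega) (fun i => g • t i)
      refine ⟨g' * g, ?_⟩
      funext i
      show (g' * g) • t i = - (g • t i)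
      rw [mul_smul]
      exact hg' i
    intro t
    apply Set.Subset.antisymm
    · rintro _ ⟨s, hs, rfl⟩
      exact key t s hs
    · intro s hs
      refine ⟨fun i => - s i, key t s hs, ?_⟩
      funext i
      exact neg_neg (s i)
  rw [h1] at hmem
  obtain ⟨g, hg⟩ := hmem
  exact not_neg g fun v => congrArg (fun e : Equiv.Perm _ => e v) hg

end Pool.Agent.Results.MP_d08dce_al.NoUniformK
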